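import Pool.Agent.Q288.Prophet.Ex

/-!
# Non-adaptive prophet inequalities on simple graphic matroids

The optimal worst-case ratio of non-adaptive algorithms on simple graphs is at least `3`.

Instance: the complete bipartite graph between `a_1, …, a_m` and `b_1, …, b_N, c', c''`.
First the edges `a b` arrive, each with value `m²/N` with probability `1/m²` (else `0`), then the
edges `a c'` with value `1`, then the edges `a c''` with value `1/ε` with probability `ε` (else `0`);
here `N ≫ m ≫ 1/ε`.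
-/

open MeasureTheory ProbabilityTheory
open scoped BigOperators ENNReal NNReal

namespace Pool.Agent.Results.MP_8487d8_lc.LowerBoundThree

open Pool.Agent.Q288.Prophet

/-- An instance: a finite simple graph (vertices `V`, edges `E`; `ends e` is the pair of endpoints
of `e`; there are no loops and no parallel edges), the order in which the edges arrive, and
independent nonnegative integrable random variables `X e`. -/
structure Inst : Type 1 where
  /-- the vertices -/
  V : Type
  /-- the edges -/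
  E : Type
  finV : Finite V
  finE : Finite E
  /-- the endpoints of an edge -/
  ends : E → Sym2 V
  ends_injective : Function.Injective ends
  ends_not_loop : ∀ e, ¬ (ends e).IsDiag
  /-- the order of arrival -/
  order : List E
  order_nodup : order.Nodup
  order_complete : ∀ e, e ∈ order
  /-- the probability space -/
  Ω : Type
  /-- its measurable sets -/
  mΩ : MeasurableSpace Ω
  /-- its probability measure -/
  μ : Measure Ω
  prob : IsProbabilityMeasure μ
  /-- the values -/
  X : E → Ω → ℝ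
  X_measurable : ∀ e, Measurable (X e)
  X_nonneg : ∀ e ω, 0 ≤ X e ω
  X_integrable : ∀ e, Integrable (X e) μ
  X_indep : iIndepFun X μ

/-- A non-adaptive algorithm for the instance `I`: a random vector of thresholds in `ℝ ∪ {∞}`,
defined on a probability space of its own (so independent of the values). -/
structure Rule (I : Inst) : Type 1 where
  /-- the probability space of the randomisation -/
  Θ : Type
  /-- its measurable sets -/
  mΘ : MeasurableSpace Θ
  /-- its probability measure -/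
  P : Measure Θ
  prob : IsProbabilityMeasure P
  /-- the thresholds -/
  T : Θ → I.E → WithTop ℝ
  T_measurable : ∀ (e : I.E) (r : ℝ), MeasurableSet {θ | T θ e ≤ (r : WithTop ℝ)}

/-- The expected value of the prophet, `E[OPT]`. -/
noncomputable def opt (I : Inst) : ℝ≥0∞ :=
  letI := I.mΩ
  ∫⁻ ω, ENNReal.ofReal (maxForest I.ends (fun e => I.X e ω)) ∂I.μ

/-- The expected value `E[ALG]` of the non-adaptive algorithm `R`. -/
noncomputable def alg (I : Inst) (R : Rule I) : ℝ≥0∞ :=
  letI := I.mΩ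
  letI := R.mΘ
  ∫⁻ θ, ∫⁻ ω, ENNReal.ofReal (algValue I.ends I.order (R.T θ) (fun e => I.X e ω)) ∂I.μ ∂(R.P)

/-- The optimal worst-case ratio of non-adaptive algorithms on simple graphs. -/
noncomputable def rhoSimple : ℝ≥0∞ :=
  ⨅ 𝒜 : (I : Inst) → Rule I, ⨆ I : Inst, opt I / alg I (𝒜 I)

lemma xv_indep {N m : ℕ} {p ε v D : ℝ} (hp0 : 0 ≤ p) (hp1 : p ≤ 1) (he0 : 0 ≤ ε) (he1 : ε ≤ 1) :
    iIndepFun (fun e ω => xv N m v D ω e) (mu N m p ε) := by
  have hb : ∀ (y : Fin N ⊕ Bool), IsProbabilityMeasure (bern (qq N p ε y)) :=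
    fun y => bern_prob (qq_mem hp0 hp1 he0 he1 y).1 (qq_mem hp0 hp1 he0 he1 y).2
  have key := iIndepFun_uncurry_infinitePi' (ι := Fin N ⊕ Bool) (κ := Fin m)
    (Ω := fun _ _ => Bool) (𝓧 := fun _ _ => ℝ)
    (X := fun y a t => xv N m v D (fun _ _ => t) (y, a))
    (fun y _ => bern (qq N p ε y)) (fun _ _ => by fun_prop)
  have e1 : (Measure.infinitePi (fun y : Fin N ⊕ Bool => Measure.infinitePi
      (fun _ : Fin m => bern (qq N p ε y)))) = mu N m p ε := by
    unfold mu blk
    rw [Measure.infinitePi_eq_pi]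
    congr 1
    ext1 y
    rw [Measure.infinitePi_eq_pi]
  rw [e1] at key
  have e2 : (fun (q : (Fin N ⊕ Bool) × Fin m) (ω : (Fin N ⊕ Bool) → Fin m → Bool) =>
      xv N m v D (fun _ _ => ω q.1 q.2) (q.1, q.2)) = fun e ω => xv N m v D ω e := by
    funext ⟨y, a⟩ ω
    rcases y with b | c
    · rfl
    · cases c <;> rfl
  rw [e2] at key
  exact key

lemma key_real (c : ℝ) (hc0 : 0 ≤ c) (hc : c < 3) :
    ∃ (N m : ℕ) (p ε v D : ℝ), 0 ≤ p ∧ p ≤ 1 ∧ 0 < ε ∧ ε ≤ 1 ∧ 0 ≤ v ∧ 0 ≤ D ∧
      ∃ L : ℝ, 0 ≤ L ∧ 0 < ∫ ω, maxForest (en N m) (xv N m v D ω) ∂mu N m p ε ∧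
        c * L ≤ ∫ ω, maxForest (en N m) (xv N m v D ω) ∂mu N m p ε ∧
        ∀ (l1 l2 l3 : List ((Fin N ⊕ Bool) × Fin m)), (∀ e, e ∈ l1 ↔ ∃ b, e.1 = Sum.inl b) →
          (∀ e, e ∈ l2 ↔ e.1 = Sum.inr false) → (∀ e, e ∈ l3 ↔ e.1 = Sum.inr true) →
          ∀ T : ((Fin N ⊕ Bool) × Fin m) → WithTop ℝ,
            ∫ ω, algValue (en N m) (l1 ++ l2 ++ l3) T (xv N m v D ω) ∂mu N m p ε ≤ L := by
  set ε : ℝ := (3 - c) / 3 with hε
  have he0 : 0 < ε := by rw [hε]; linarith
  have he1 : ε ≤ 1 := by rw [hε]; linarith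
  set D : ℝ := 1 / ε with hD
  have hD0 : 0 ≤ D := by positivity
  have hεD : ε * D = 1 := by rw [hD]; field_simp
  have hgap : 0 < 3 - ε - c := by rw [hε]; linarith
  obtain ⟨m0, hm0⟩ := exists_nat_ge ((1 + c * (3 + 2 * D)) / (3 - ε - c))
  set m : ℕ := max m0 2 with hm
  have hm2 : (2 : ℝ) ≤ m := by exact_mod_cast le_max_right m0 2
  have hmge : (1 + c * (3 + 2 * D)) / (3 - ε - c) ≤ m :=
    hm0.trans (by exact_mod_cast le_max_left m0 2)
  have hmpos : (0 : ℝ) < m := by linarith
  set p : ℝ := 1 / (m : ℝ) ^ 2 with hp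
  have hp0 : 0 < p := by positivity
  have hp1 : p ≤ 1 := by
    rw [hp, div_le_one (by positivity)]
    nlinarith
  have hp1' : p < 1 := by
    rw [hp, div_lt_one (by positivity)]
    nlinarith
  have hr0 : 0 ≤ 1 - p ^ 2 := by nlinarith
  have hr1 : 1 - p ^ 2 < 1 := by nlinarith [sq_pos_of_pos hp0]
  have hlim : Filter.Tendsto (fun K : ℕ => (m + m * D) * ((m : ℝ) ^ 2 * (1 - p ^ 2) ^ K))
      Filter.atTop (nhds 0) := by
    have := (tendsto_pow_atTop_nhds_zero_of_lt_one hr0 hr1).const_mul ((m + m * D) * (m : ℝ) ^ 2)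
    rw [mul_zero] at this
    refine this.congr (fun K => by ring)
  obtain ⟨K, hK⟩ := (hlim.eventually (eventually_le_nhds (show (0 : ℝ) < 1 by norm_num))).exists
  set N : ℕ := 2 ^ m * K * m + 1 with hN
  have hNpos : 0 < N := by rw [hN]; positivity
  have hNR : (0 : ℝ) < N := by exact_mod_cast hNpos
  have hNge : (2 : ℝ) ^ m * K * m / N ≤ 1 := by
    rw [div_le_one hNR, hN]
    push_cast
    linarith
  set v : ℝ := (m : ℝ) ^ 2 / N with hv
  have hv0 : 0 ≤ v := by positivity
  have hpv : p * v * N = 1 := by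
    rw [hp, hv]
    field_simp
  have hopt := opt_lower_int (N := N) (m := m) (v := v) hp0.le hp1 he0 he1 hεD
  have hexp : (1 - p) ^ m ≤ 1 - 1 / (m : ℝ) + 1 / (m : ℝ) ^ 2 := by
    have h1 : (1 - p) ^ m ≤ Real.exp (-(1 / (m : ℝ))) := by
      calc (1 - p) ^ m ≤ (Real.exp (-p)) ^ m :=
            pow_le_pow_left₀ (by linarith) (Real.one_sub_le_exp_neg p) m
        _ = Real.exp (-(1 / (m : ℝ))) := by
            rw [← Real.exp_nat_mul]
            congr 1
            rw [hp]
            field_simp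
    have ht1 : |(-(1 / (m : ℝ)))| ≤ 1 := by
      rw [abs_neg, abs_of_pos (by positivity), div_le_one hmpos]
      linarith
    have h2 := Real.abs_exp_sub_one_sub_id_le ht1
    have h3 := (abs_le.1 h2).2
    have h4 : (-(1 / (m : ℝ))) ^ 2 = 1 / (m : ℝ) ^ 2 := by ring
    rw [h4] at h3
    linarith
  have hopt2 : (3 - ε) * m - 1 ≤ ∫ ω, maxForest (en N m) (xv N m v D ω) ∂mu N m p ε := by
    refine le_trans ?_ hopt
    have h5 : (N : ℝ) * (v * (1 - (1 - p) ^ m)) = (m : ℝ) ^ 2 * (1 - (1 - p) ^ m) := by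
      rw [hv]
      field_simp
    rw [h5]
    have h6 : (m : ℝ) ^ 2 * (1 / (m : ℝ) - 1 / (m : ℝ) ^ 2) ≤ (m : ℝ) ^ 2 * (1 - (1 - p) ^ m) :=
      mul_le_mul_of_nonneg_left (by linarith) (by positivity)
    have h7 : (m : ℝ) ^ 2 * (1 / (m : ℝ) - 1 / (m : ℝ) ^ 2) = m - 1 := by
      field_simp
    linarith
  refine ⟨N, m, p, ε, v, D, hp0.le, hp1, he0, he1, hv0, hD0, m + 3 + 2 * D, by positivity, ?_, ?_, ?_⟩
  · refine lt_of_lt_of_le ?_ hopt2
    nlinarith
  · refine le_trans ?_ hopt2
    rw [div_le_iff₀ hgap] at hmge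
    nlinarith
  · intro l1 l2 l3 h1 h2 h3 T
    have := alg_upper hp0.le hp1 he0 he1 hv0 hD0 hεD hNpos hpv h1 h2 h3 T K
    linarith

/-- **Lower bound 3 for non-adaptive prophet inequalities on simple graphs.** For every `c < 3`
there is an instance on a simple graph on which every (randomised) non-adaptive algorithm has
`c · E[ALG] ≤ E[OPT]`; hence the optimal ratio satisfies `ρ_simple ≥ 3 > 2`. -/
theorem result :
    (∀ c : ℝ≥0, c < 3 → ∃ I : Inst, 0 < opt I ∧ opt I ≠ ∞ ∧
      ∀ R : Rule I, (c : ℝ≥0∞) * alg I R ≤ opt I) ∧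
    3 ≤ rhoSimple := by
  have main : ∀ c : ℝ≥0, c < 3 → ∃ I : Inst, 0 < opt I ∧ opt I ≠ ∞ ∧
      ∀ R : Rule I, (c : ℝ≥0∞) * alg I R ≤ opt I := by
    intro c hc
    classical
    obtain ⟨N, m, p, ε, v, D, hp0, hp1, he0, he1, hv0, hD0, L, hL0, hpos, hcL, halg⟩ :=
      key_real c c.2 (by exact_mod_cast hc)
    have hprob := mu_prob (N := N) (m := m) hp0 hp1 he0.le he1
    set l1 : List ((Fin N ⊕ Bool) × Fin m) :=
      (Finset.univ.filter (fun e : (Fin N ⊕ Bool) × Fin m => ∃ b, e.1 = Sum.inl b)).toList with hl1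
    set l2 : List ((Fin N ⊕ Bool) × Fin m) :=
      (Finset.univ.filter (fun e : (Fin N ⊕ Bool) × Fin m => e.1 = Sum.inr false)).toList with hl2
    set l3 : List ((Fin N ⊕ Bool) × Fin m) :=
      (Finset.univ.filter (fun e : (Fin N ⊕ Bool) × Fin m => e.1 = Sum.inr true)).toList with hl3
    have m1 : ∀ e, e ∈ l1 ↔ ∃ b, e.1 = Sum.inl b := by
      intro e
      simp [hl1]
    have m2 : ∀ e, e ∈ l2 ↔ e.1 = Sum.inr false := by
      intro e
      simp [hl2]
    have m3 : ∀ e, e ∈ l3 ↔ e.1 = Sum.inr true := by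
      intro e
      simp [hl3]
    have hnodup : (l1 ++ l2 ++ l3).Nodup := by
      rw [List.nodup_append, List.nodup_append]
      refine ⟨⟨Finset.nodup_toList _, Finset.nodup_toList _, ?_⟩, Finset.nodup_toList _, ?_⟩
      · intro e he e' he' h
        subst h
        rw [m1] at he
        rw [m2] at he'
        obtain ⟨b, hb⟩ := he
        rw [hb] at he'
        simp at he'
      · intro e he e' he' h
        subst h
        rw [m3] at he'
        rcases List.mem_append.1 he with he | he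
        · rw [m1] at he
          obtain ⟨b, hb⟩ := he
          rw [hb] at he'
          simp at he'
        · rw [m2, he'] at he
          simp at he
    have hcomp : ∀ e, e ∈ l1 ++ l2 ++ l3 := by
      rintro ⟨y, a⟩
      rw [List.mem_append, List.mem_append, m1, m2, m3]
      rcases y with b | t
      · exact Or.inl (Or.inl ⟨b, rfl⟩)
      · cases t
        · exact Or.inl (Or.inr rfl)
        · exact Or.inr rfl
    have hint : ∀ g : ((Fin N ⊕ Bool) → Fin m → Bool) → ℝ, Integrable g (mu N m p ε) :=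
      fun g => Integrable.of_finite
    let I : Inst :=
      { V := Fin m ⊕ (Fin N ⊕ Bool)
        E := (Fin N ⊕ Bool) × Fin m
        finV := inferInstance
        finE := inferInstance
        ends := en N m
        ends_injective := en_inj
        ends_not_loop := en_loop
        order := l1 ++ l2 ++ l3
        order_nodup := hnodup
        order_complete := hcomp
        Ω := (Fin N ⊕ Bool) → Fin m → Bool
        mΩ := inferInstance
        μ := mu N m p ε
        prob := hprob
        X := fun e ω => xv N m v D ω e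
        X_measurable := fun e => measurable_of_finite _
        X_nonneg := fun e ω => xv_nonneg hv0 hD0 ω e
        X_integrable := fun e => hint _
        X_indep := xv_indep hp0 hp1 he0.le he1 }
    have hempty : IsForest (en N m) (∅ : Finset ((Fin N ⊕ Bool) × Fin m)) := by
      simp [IsForest, gr]
    have hopt : opt I = ENNReal.ofReal (∫ ω, maxForest (en N m) (xv N m v D ω) ∂mu N m p ε) := by
      rw [ofReal_integral_eq_lintegral_ofReal (hint _)]
      · rfl
      · refine Filter.Eventually.of_forall (fun ω => ?_)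
        have := le_maxForest (xv N m v D ω) hempty
        simpa using this
    refine ⟨I, ?_, ?_, ?_⟩
    · rw [hopt]
      exact ENNReal.ofReal_pos.2 hpos
    · rw [hopt]
      exact ENNReal.ofReal_ne_top
    · intro R
      have hRp := R.prob
      have h1 : alg I R ≤ ENNReal.ofReal L := by
        have h2 : ∀ T : ((Fin N ⊕ Bool) × Fin m) → WithTop ℝ,
            ∫⁻ ω, ENNReal.ofReal (algValue (en N m) (l1 ++ l2 ++ l3) T (xv N m v D ω))
              ∂mu N m p ε ≤ ENNReal.ofReal L := by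
          intro T
          rw [← ofReal_integral_eq_lintegral_ofReal (hint _)]
          · exact ENNReal.ofReal_le_ofReal (halg l1 l2 l3 m1 m2 m3 T)
          · refine Filter.Eventually.of_forall (fun ω => ?_)
            exact Finset.sum_nonneg (fun e _ => xv_nonneg hv0 hD0 ω e)
        let _ := R.mΘ
        calc alg I R ≤ ∫⁻ _, ENNReal.ofReal L ∂(R.P) := lintegral_mono (fun θ => h2 (R.T θ))
          _ = ENNReal.ofReal L := by
              rw [lintegral_const, measure_univ, mul_one]
      rw [hopt]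
      calc (c : ℝ≥0∞) * alg I R ≤ (c : ℝ≥0∞) * ENNReal.ofReal L := by gcongr
        _ = ENNReal.ofReal (c * L) := by
            rw [ENNReal.ofReal_mul (NNReal.coe_nonneg c), ENNReal.ofReal_coe_nnreal]
        _ ≤ _ := ENNReal.ofReal_le_ofReal hcL
  refine ⟨main, ?_⟩
  refine le_iInf (fun 𝒜 => ?_)
  refine le_of_forall_lt (fun d hd => ?_)
  have hdtop : d ≠ ∞ := ne_top_of_lt hd
  obtain ⟨c, rfl⟩ : ∃ c : ℝ≥0, (c : ℝ≥0∞) = d := ⟨d.toNNReal, ENNReal.coe_toNNReal hdtop⟩
  have hc3 : c < 3 := by exact_mod_cast hd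
  obtain ⟨c', hcc', hc'3⟩ := exists_between hc3
  obtain ⟨I, hI0, hItop, hI⟩ := main c' hc'3
  have h1 : (c' : ℝ≥0∞) ≤ opt I / alg I (𝒜 I) := by
    rw [ENNReal.le_div_iff_mul_le (Or.inr hI0.ne') (Or.inr hItop)]
    exact hI _
  calc (c : ℝ≥0∞) < c' := by exact_mod_cast hcc'
    _ ≤ opt I / alg I (𝒜 I) := h1
    _ ≤ ⨆ I : Inst, opt I / alg I (𝒜 I) := le_iSup (fun I : Inst => opt I / alg I (𝒜 I)) I

end Pool.Agent.Results.MP_8487d8_lc.LowerBoundThree
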